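import Pool.Agent.TH818.AP.Mv2

/-!
# The ready-to-use statement with functions depending on the parameter
-/

set_option autoImplicit false

namespace Pool.Agent.TH373.EP

open Pool.Agent.TH818.AP

/-- Functions `f_{j,i}` (`i < s`) of the `j`-th parameter whose monomials are independent over `ℝ[t]` on `[a_j,b_j]`;
for almost all `n`-tuples of rationals no polynomial of degree `≤ d` in each variable and coefficients `≤ T^A` is small at
`(π, f_{j,i}(t_j))` (complex-valued version). -/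
theorem polysJ {s d n : ℕ} (f : Fin n → Fin s → ℝ → ℝ) (a b : Fin n → ℝ) (hab : ∀ j, a j < b j)
    (han : ∀ j i, AnalyticOnNhd ℝ (f j i) (Set.Icc (a j) (b j)))
    (hg : ∀ j, RIndep (fun (e : Fin s → Fin (d + 1)) (t : ℝ) => ∏ i, f j i t ^ (e i : ℕ)) (a j) (b j))
    (hn : 1 ≤ n) (vals : (Fin n → ℚ) → Option (Fin n × Fin s) → ℂ)
    (hv0 : ∀ q, vals q none = (Real.pi : ℂ))
    (hv : ∀ q : Fin n → ℚ, (∀ j, a j ≤ q j ∧ q j ≤ b j) → ∀ j i, vals q (some (j, i)) = ((f j i (q j) : ℝ) : ℂ))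
    (A β : ℝ) (hA : 0 ≤ A) (hβ : 2 - 2 / (((d : ℝ) + 1) ^ (s * n + 1) + 1) < β) :
    ∃ B C : ℝ, ∀ T : ℝ, 1 ≤ T →
      {t : Fin n → ℚ | (∀ j, a j ≤ t j ∧ t j ≤ b j ∧ ((t j).den : ℝ) ≤ T) ∧
        ∃ P : MvPolynomial (Option (Fin n × Fin s)) ℤ, P ≠ 0 ∧ (∀ x, P.degreeOf x ≤ d) ∧
          (∀ u, |((P.coeff u : ℤ) : ℝ)| ≤ T ^ A) ∧ ‖MvPolynomial.aeval (vals t) P‖ ≤ T ^ (-B)}.Finite ∧
      (({t : Fin n → ℚ | (∀ j, a j ≤ t j ∧ t j ≤ b j ∧ ((t j).den : ℝ) ≤ T) ∧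
        ∃ P : MvPolynomial (Option (Fin n × Fin s)) ℤ, P ≠ 0 ∧ (∀ x, P.degreeOf x ≤ d) ∧
          (∀ u, |((P.coeff u : ℤ) : ℝ)| ≤ T ^ A) ∧ ‖MvPolynomial.aeval (vals t) P‖ ≤ T ^ (-B)}.ncard : ℕ) : ℝ) ≤
        C * T ^ (2 * ((n : ℝ) - 1) + β) := by
  classical
  have hι : 0 < Fintype.card (Fin s → Fin (d + 1)) := Fintype.card_pos
  have hcard : (Fintype.card (Fin s → Fin (d + 1))) ^ n * Fintype.card (Fin (d + 1)) = (d + 1) ^ (s * n + 1) := by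
    simp only [Fintype.card_pi, Fintype.card_fin, Finset.prod_const, Finset.card_univ]
    rw [← pow_mul, ← pow_succ]
  have hβ' : 2 * (((Fintype.card (Fin s → Fin (d + 1))) ^ n * Fintype.card (Fin (d + 1)) : ℕ) : ℝ) /
      ((((Fintype.card (Fin s → Fin (d + 1))) ^ n * Fintype.card (Fin (d + 1)) : ℕ) : ℝ) + 1) < β := by
    rw [hcard]
    refine lt_of_le_of_lt (le_of_eq ?_) hβ
    have hM0 : (0 : ℝ) < ((d : ℝ) + 1) ^ (s * n + 1) := by positivity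
    push_cast
    field_simp
    ring
  obtain ⟨B, C, h⟩ := multi_gen hι _ (goodConst_pi d) n hn
    (fun j => fun (e : Fin s → Fin (d + 1)) (t : ℝ) => ∏ i, f j i t ^ (e i : ℕ)) a b
    hab (fun j e t ht => Finset.analyticAt_fun_prod _ fun i _ => (han j i t ht).pow _) hg
    A β hA hβ'
  refine ⟨B, C, fun T hT => ?_⟩
  obtain ⟨hfin, hle⟩ := h T hT
  have hsub : {t : Fin n → ℚ | (∀ j, a j ≤ t j ∧ t j ≤ b j ∧ ((t j).den : ℝ) ≤ T) ∧
        ∃ P : MvPolynomial (Option (Fin n × Fin s)) ℤ, P ≠ 0 ∧ (∀ x, P.degreeOf x ≤ d) ∧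
          (∀ u, |((P.coeff u : ℤ) : ℝ)| ≤ T ^ A) ∧ ‖MvPolynomial.aeval (vals t) P‖ ≤ T ^ (-B)} ⊆
      ExcM (fun j => fun (e : Fin s → Fin (d + 1)) (t : ℝ) => ∏ i, f j i t ^ (e i : ℕ))
        (fun e : Fin (d + 1) => Real.pi ^ (e : ℕ)) a b A B T := by
    rintro t ⟨ht, P, hP0, hPd, hPc, hPs⟩
    refine ⟨fun j => ⟨⟨(ht j).1, (ht j).2.1⟩, (ht j).2.2⟩, fun e => P.coeff (sOf2 e),
      coeff_ne2 P hP0 hPd, fun e => hPc _, ?_⟩
    set g : Option (Fin n × Fin s) → ℝ := fun x => x.elim Real.pi fun y => f y.1 y.2 (t y.1) with hg'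
    have h1 : vals t = fun x => ((g x : ℝ) : ℂ) := by
      funext x
      cases x with
      | none => exact hv0 t
      | some y => exact hv t (fun j => ⟨(ht j).1, (ht j).2.1⟩) y.1 y.2
    have h2 : MvPolynomial.aeval (vals t) P = ((MvPolynomial.aeval g P : ℝ) : ℂ) := by
      rw [h1]
      exact (MvPolynomial.aeval_algebraMap_apply ℂ g P)
    rw [h2, Complex.norm_real, Real.norm_eq_abs, aeval_eq2 _ P hPd] at hPs
    refine le_trans (le_of_eq ?_) hPs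
    congr 1
  refine ⟨hfin.subset hsub, le_trans ?_ hle⟩
  exact_mod_cast Set.ncard_le_ncard hsub hfin

end Pool.Agent.TH373.EP
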