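import Pool.Agent.TH818.AP.Mv2
import Pool.Agent.TH21.MS.Grow

/-!
# Independence of `t`, `exp (β t)`, `log t`
-/

set_option autoImplicit false

open Set Polynomial Filter Topology

namespace Pool.Agent.TH373.EP

open Pool.Agent.TH21.MS

/-- the functions `e^u`, `e^(β e^u)` -/
noncomputable def uu (β : ℝ) (k : Fin 2) (u : ℝ) : ℝ := if k = 0 then Real.exp u else Real.exp (β * Real.exp u)

theorem uu_LB {β : ℝ} (hβ : β ≠ 0) : LB (uu β) Real.exp := by
  have hlog0 : ∀ u, Real.log (uu β 0 u) = u := fun u => by simp [uu]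
  have hlog1 : ∀ u, Real.log (uu β 1 u) = β * Real.exp u := fun u => by simp [uu]
  have hle : Tendsto (fun t : ℝ => t / Real.exp t) atTop (𝓝 0) := by
    have := Real.tendsto_pow_mul_exp_neg_atTop_nhds_zero 1
    refine this.congr fun t => ?_
    rw [pow_one, Real.exp_neg]
    rfl
  have hlt : Tendsto (fun t : ℝ => Real.log t / t) atTop (𝓝 0) := by
    have := Real.isLittleO_log_id_atTop.tendsto_div_nhds_zero
    exact this
  have hlp : ∀ᶠ t : ℝ in atTop, 0 < Real.log t := by
    filter_upwards [eventually_gt_atTop 1] with t ht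
    exact Real.log_pos ht
  -- `t / log t → ∞`
  have htl : Tendsto (fun t : ℝ => t / Real.log t) atTop atTop := by
    have h1 : Tendsto (fun t : ℝ => (Real.log t / t)⁻¹) atTop atTop := by
      apply Filter.Tendsto.inv_tendsto_nhdsGT_zero
      refine tendsto_nhdsWithin_iff.2 ⟨hlt, ?_⟩
      filter_upwards [hlp, eventually_gt_atTop 0] with t h1 h2
      exact div_pos h1 h2
    refine h1.congr fun t => ?_
    rw [inv_div]
  refine LB_of_growth (uu β) Real.exp ?_ ?_ ?_ ?_ ?_
  · intro k
    filter_upwards with t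
    unfold uu
    split_ifs <;> exact Real.exp_pos _
  · intro k
    refine ⟨0, ?_⟩
    unfold uu
    split_ifs
    · exact Real.continuous_exp.continuousOn
    · exact (by fun_prop : Continuous fun u : ℝ => Real.exp (β * Real.exp u)).continuousOn
  · intro c hc
    simp only [Fin.sum_univ_two, hlog0, hlog1]
    by_cases h1 : c 1 = 0
    · have h0 : c 0 ≠ 0 := by
        intro h0
        apply hc
        funext k
        fin_cases k
        · exact h0
        · exact h1
      have h0' : (0 : ℝ) < |(c 0 : ℝ)| := abs_pos.2 (by exact_mod_cast h0)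
      refine (htl.const_mul_atTop h0').congr' ?_
      filter_upwards [eventually_gt_atTop 0] with t ht
      rw [h1, Int.cast_zero, zero_mul, add_zero, abs_mul, abs_of_pos ht, mul_div_assoc]
    · have h1' : (0 : ℝ) < |(c 1 : ℝ) * β| := abs_pos.2 (mul_ne_zero (by exact_mod_cast h1) hβ)
      have h2 : ∀ᶠ t : ℝ in atTop, |(c 0 : ℝ)| * (t / Real.exp t) ≤ |(c 1 : ℝ) * β| / 2 := by
        have : Tendsto (fun t : ℝ => |(c 0 : ℝ)| * (t / Real.exp t)) atTop (𝓝 (|(c 0 : ℝ)| * 0)) := hle.const_mul _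
        rw [mul_zero] at this
        exact this.eventually_le_const (by positivity)
      refine tendsto_atTop_mono' _ ?_ (htl.const_mul_atTop (show (0 : ℝ) < |(c 1 : ℝ) * β| / 2 by positivity))
      filter_upwards [h2, hlp, eventually_gt_atTop 0] with t ht hl ht0
      rw [← mul_div_assoc]
      apply div_le_div_of_nonneg_right _ hl.le
      have h3 : |(c 0 : ℝ)| * t ≤ |(c 1 : ℝ) * β| / 2 * Real.exp t := by
        rw [← mul_div_assoc, div_le_iff₀ (Real.exp_pos t)] at ht
        exact ht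
      have h4 : t ≤ Real.exp t := by linarith [Real.add_one_le_exp t]
      have h5 : |(c 1 : ℝ) * (β * Real.exp t)| - |(c 0 : ℝ) * t| ≤ |(c 0 : ℝ) * t + (c 1 : ℝ) * (β * Real.exp t)| := by
        have := abs_sub_abs_le_abs_sub ((c 1 : ℝ) * (β * Real.exp t)) (-((c 0 : ℝ) * t))
        rw [abs_neg, sub_neg_eq_add, add_comm ((c 1 : ℝ) * (β * Real.exp t))] at this
        exact this
      rw [← mul_assoc, abs_mul, abs_of_pos (Real.exp_pos t), abs_mul (c 0 : ℝ) t, abs_of_pos ht0] at h5
      have h6 : |(c 1 : ℝ) * β| / 2 * t ≤ |(c 1 : ℝ) * β| / 2 * Real.exp t :=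
        mul_le_mul_of_nonneg_left h4 (by positivity)
      rw [← mul_assoc (c 1 : ℝ) β (Real.exp t)]
      linarith
  · filter_upwards [eventually_gt_atTop 0] with t ht
    have := Real.log_le_sub_one_of_pos ht
    linarith [Real.add_one_le_exp t]
  · intro k
    refine ⟨1 + |β|, ?_⟩
    filter_upwards [eventually_gt_atTop 0] with t ht
    have h4 : t ≤ Real.exp t := by linarith [Real.add_one_le_exp t]
    have h5 := Real.exp_pos t
    fin_cases k
    · change |Real.log (uu β 0 t)| ≤ _
      rw [hlog0, abs_of_pos ht]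
      nlinarith [abs_nonneg β, mul_nonneg (abs_nonneg β) h5.le]
    · change |Real.log (uu β 1 t)| ≤ _
      rw [hlog1, abs_mul, abs_of_pos h5]
      nlinarith

/-- exponent vectors -/
noncomputable def sv (m i : ℕ) : Fin 2 →₀ ℕ := Finsupp.equivFunOnFinite.symm ![m, i]

theorem sv_inj {m i m' i' : ℕ} (h : sv m i = sv m' i') : m = m' ∧ i = i' := by
  constructor
  · simpa [sv] using DFunLike.congr_fun h 0
  · simpa [sv] using DFunLike.congr_fun h 1

theorem tor_zero {d : ℕ} {β : ℝ} (hβ : β ≠ 0) (p : (Fin 2 → Fin (d + 1)) → ℝ[X])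
    (h : ∀ t : ℝ, 0 < t → ∑ e, (p e).eval t * (Real.exp (β * t) ^ (e 0 : ℕ) * Real.log t ^ (e 1 : ℕ)) = 0) : p = 0 := by
  classical
  set N : ℕ := (Finset.univ.sup fun e => (p e).natDegree) + 1 with hN
  have hdeg : ∀ e, (p e).natDegree < N := fun e => Nat.lt_succ_of_le (Finset.le_sup (f := fun e => (p e).natDegree) (Finset.mem_univ e))
  set P : MvPolynomial (Fin 2) ℝ[X] := ∑ e : Fin 2 → Fin (d + 1), ∑ m ∈ Finset.range N,
    MvPolynomial.monomial (sv m (e 0 : ℕ)) (C ((p e).coeff m) * X ^ (e 1 : ℕ)) with hP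
  have hev : ∀ u, ev (uu β) P u = 0 := by
    intro u
    have h1 := h (Real.exp u) (Real.exp_pos u)
    rw [← h1]
    unfold ev
    rw [hP, MvPolynomial.eval₂_sum]
    refine Finset.sum_congr rfl fun e _ => ?_
    rw [MvPolynomial.eval₂_sum, eval_eq_sum_range' (hdeg e), Finset.sum_mul]
    refine Finset.sum_congr rfl fun m _ => ?_
    rw [MvPolynomial.eval₂_monomial, Finsupp.prod_fintype _ _ (fun i => pow_zero _), Fin.prod_univ_two]
    simp only [coe_evalRingHom, eval_mul, eval_C, eval_pow, eval_X, sv, Finsupp.equivFunOnFinite_symm_apply_apply,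
      Matrix.cons_val_zero, Matrix.cons_val_one, uu, Real.log_exp]
    simp
    ring
  have hP0 : P = 0 := by
    by_contra hne
    obtain ⟨C, hC⟩ := uu_LB hβ P hne
    obtain ⟨u, hu⟩ := hC.exists
    rw [hev u, abs_zero] at hu
    exact absurd hu (not_le.2 (Real.exp_pos _))
  funext e0
  ext m0
  by_cases hm : m0 < N
  · have h1 := congrArg (fun Q : MvPolynomial (Fin 2) ℝ[X] => (Q.coeff (sv m0 (e0 0 : ℕ))).coeff (e0 1 : ℕ)) hP0
    simp only [hP, MvPolynomial.coeff_sum, MvPolynomial.coeff_monomial, MvPolynomial.coeff_zero, coeff_zero,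
      finsetSum_coeff] at h1
    rw [Finset.sum_eq_single e0, Finset.sum_eq_single m0] at h1
    · simpa using h1
    · intro m _ hm
      rw [if_neg (fun hh => hm (sv_inj hh).1), coeff_zero]
    · intro hh
      exact absurd (Finset.mem_range.2 hm) hh
    · intro e _ he
      refine Finset.sum_eq_zero fun m _ => ?_
      by_cases h2 : sv m (e 0 : ℕ) = sv m0 (e0 0 : ℕ)
      · rw [if_pos h2, coeff_C_mul, coeff_X_pow, if_neg, mul_zero]
        intro h3
        apply he
        funext i
        fin_cases i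
        · exact Fin.ext (sv_inj h2).2
        · exact Fin.ext h3.symm
      · rw [if_neg h2, coeff_zero]
    · simp
  · rw [Pi.zero_apply, coeff_zero]
    exact coeff_eq_zero_of_natDegree_lt (lt_of_lt_of_le (hdeg e0) (not_lt.1 hm))

/-- the two functions -/
noncomputable def g2 (β : ℝ) (i : Fin 2) (t : ℝ) : ℝ := if i = 0 then Real.exp (β * t) else Real.log t

theorem g2_an (β : ℝ) (i : Fin 2) {t : ℝ} (ht : 0 < t) : AnalyticAt ℝ (g2 β i) t := by
  unfold g2
  split_ifs
  · exact (analyticAt_const.mul analyticAt_id).rexp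
  · exact analyticAt_log ht

open Pool.Agent.TH818.AP in
theorem tor_rindep (d : ℕ) {β : ℝ} (hβ : β ≠ 0) {a b : ℝ} (ha : 0 < a) (hab : a < b) :
    RIndep (fun (e : Fin 2 → Fin (d + 1)) (t : ℝ) => ∏ i, g2 β i t ^ (e i : ℕ)) a b := by
  classical
  intro p hp
  apply tor_zero hβ
  have h1 : AnalyticOnNhd ℝ (fun t => ∑ e, (p e).eval t * ∏ i, g2 β i t ^ (e i : ℕ)) (Ioi 0) := by
    intro t ht
    refine Finset.analyticAt_fun_sum _ fun e _ => AnalyticAt.mul ?_ ?_
    · exact AnalyticOnNhd.eval_polynomial (p e) t (mem_univ _)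
    · exact Finset.analyticAt_fun_prod _ fun j _ => (g2_an β j ht).pow _
  have h2 : (fun t => ∑ e, (p e).eval t * ∏ i, g2 β i t ^ (e i : ℕ)) =ᶠ[𝓝 ((a + b) / 2)] 0 := by
    filter_upwards [Icc_mem_nhds (show a < (a + b) / 2 by linarith) (show (a + b) / 2 < b by linarith)] with t ht
    exact hp t ht
  have h3 := h1.eqOn_zero_of_preconnected_of_eventuallyEq_zero isPreconnected_Ioi
    (show (a + b) / 2 ∈ Ioi 0 by rw [mem_Ioi]; linarith) h2
  intro t ht
  have h4 := h3 ht
  simp only [Fin.prod_univ_two, g2] at h4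
  simpa using h4

end Pool.Agent.TH373.EP
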