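import Pool.Agent.TH373.EP.Wp

/-!
# Real lattices: independence of `t`, `℘(α t)`, `ζ(α t)` on real intervals
-/

set_option autoImplicit false

open Set Polynomial Filter Topology
open scoped PeriodPair ComplexConjugate

namespace Pool.Agent.TH373.EP

open H667R3 Pool.Agent.W245.EB

variable (L : PeriodPair)

/-- the lattice is stable under complex conjugation -/
def RealLattice : Prop := ∀ w ∈ L.lattice, conj w ∈ L.lattice

/-- conjugation on a real lattice -/
def cj (hL : RealLattice L) : L.lattice ≃ L.lattice where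
  toFun l := ⟨conj (l : ℂ), hL _ l.2⟩
  invFun l := ⟨conj (l : ℂ), hL _ l.2⟩
  left_inv l := Subtype.ext (Complex.conj_conj _)
  right_inv l := Subtype.ext (Complex.conj_conj _)

theorem wp_conj (hL : RealLattice L) (z : ℂ) : ℘[L] (conj z) = conj (℘[L] z) := by
  unfold PeriodPair.weierstrassP
  rw [Complex.conj_tsum, ← (cj L hL).tsum_eq]
  refine tsum_congr fun l => ?_
  simp [cj]

theorem zeta_conj (hL : RealLattice L) (z : ℂ) : zeta L (conj z) = conj (zeta L z) := by
  unfold zeta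
  rw [Complex.conj_tsum, ← (cj L hL).tsum_eq]
  refine tsum_congr fun l => ?_
  simp [cj]

/-- `℘(α t)` as a real function -/
noncomputable def fP (α t : ℝ) : ℝ := (℘[L] ((α * t : ℝ) : ℂ)).re

/-- `ζ(α t)` as a real function -/
noncomputable def fZ (α t : ℝ) : ℝ := (zeta L ((α * t : ℝ) : ℂ)).re

theorem fP_coe (hL : RealLattice L) (α t : ℝ) : ((fP L α t : ℝ) : ℂ) = ℘[L] ((α * t : ℝ) : ℂ) := by
  unfold fP
  rw [← Complex.conj_eq_iff_re, ← wp_conj L hL, Complex.conj_ofReal]

theorem fZ_coe (hL : RealLattice L) (α t : ℝ) : ((fZ L α t : ℝ) : ℂ) = zeta L ((α * t : ℝ) : ℂ) := by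
  unfold fZ
  rw [← Complex.conj_eq_iff_re, ← zeta_conj L hL, Complex.conj_ofReal]

theorem zeta_an {z : ℂ} (hz : z ∉ L.lattice) : AnalyticAt ℂ (zeta L) z :=
  (differentiableOn_zeta L).analyticAt (L.isClosed_lattice.isOpen_compl.mem_nhds hz)

theorem wp_an {z : ℂ} (hz : z ∉ L.lattice) : AnalyticAt ℂ ℘[L] z :=
  L.differentiableOn_weierstrassP.analyticAt (L.isClosed_lattice.isOpen_compl.mem_nhds hz)

theorem re_an {F : ℂ → ℂ} (α t : ℝ) (h : AnalyticAt ℂ F ((α * t : ℝ) : ℂ)) :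
    AnalyticAt ℝ (fun t : ℝ => (F ((α * t : ℝ) : ℂ)).re) t := by
  have h1 : AnalyticAt ℝ F ((α * t : ℝ) : ℂ) := h.restrictScalars
  have h2 : AnalyticAt ℝ (fun t : ℝ => ((α * t : ℝ) : ℂ)) t := by
    have h3 : AnalyticAt ℝ (fun t : ℝ => α * t) t := analyticAt_const.mul analyticAt_id
    exact (Complex.ofRealCLM.analyticAt _).comp h3
  have h4 : AnalyticAt ℝ (fun t : ℝ => F ((α * t : ℝ) : ℂ)) t := AnalyticAt.comp' h1 h2
  exact (Complex.reCLM.analyticAt _).comp h4

theorem fP_an {α t : ℝ} (h : ((α * t : ℝ) : ℂ) ∉ L.lattice) : AnalyticAt ℝ (fP L α) t :=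
  re_an α t (wp_an L h)

theorem fZ_an {α t : ℝ} (h : ((α * t : ℝ) : ℂ) ∉ L.lattice) : AnalyticAt ℝ (fZ L α) t :=
  re_an α t (zeta_an L h)

/-- the two functions -/
noncomputable def f2 (α : ℝ) (i : Fin 2) (t : ℝ) : ℝ := if i = 0 then fP L α t else fZ L α t

open Pool.Agent.TH818.AP in
theorem rindep (hL : RealLattice L) (d : ℕ) {α : ℝ} (hα : α ≠ 0) {a b : ℝ} (hab : a < b)
    (hav : ∀ t ∈ Icc a b, ((α * t : ℝ) : ℂ) ∉ L.lattice) :
    RIndep (fun (e : Fin 2 → Fin (d + 1)) (t : ℝ) => ∏ i, f2 L α i t ^ (e i : ℕ)) a b := by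
  classical
  intro p hp
  set φ : ℝ →+* ℂ := Complex.ofRealHom with hφ
  set p' : Fin (d + 1) → Fin (d + 1) → ℂ[X] := fun i k =>
    ((p ![i, k]).map φ).comp (C ((α : ℂ)⁻¹) * X) with hp'
  have hαc : (α : ℂ) ≠ 0 := by exact_mod_cast hα
  set G : ℂ → ℂ := fun z => ∑ i, ∑ k, (p' i k).eval z * ℘[L] z ^ (i : ℕ) * zeta L z ^ (k : ℕ) with hG
  have hGan : AnalyticOnNhd ℂ G (L.lattice : Set ℂ)ᶜ := by
    intro z hz
    refine Finset.analyticAt_fun_sum _ fun i _ => Finset.analyticAt_fun_sum _ fun k _ => ?_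
    refine AnalyticAt.mul (AnalyticAt.mul ?_ ((wp_an L hz).pow _)) ((zeta_an L hz).pow _)
    exact AnalyticOnNhd.eval_polynomial (p' i k) z (mem_univ _)
  have hGreal : ∀ t ∈ Icc a b, G ((α * t : ℝ) : ℂ) = 0 := by
    intro t ht
    have h1 := congrArg φ (hp t ht)
    rw [map_zero, map_sum] at h1
    rw [hG]
    simp only
    rw [← h1, ← (piFinTwoEquiv fun _ => Fin (d + 1)).symm.sum_comp, Fintype.sum_prod_type]
    refine Finset.sum_congr rfl fun i _ => Finset.sum_congr rfl fun k _ => ?_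
    simp only [hp', piFinTwoEquiv_symm_apply, Fin.prod_univ_two, map_mul, map_pow, f2]
    have e1 : (φ (fP L α t)) = ℘[L] ((α * t : ℝ) : ℂ) := fP_coe L hL α t
    have e2 : (φ (fZ L α t)) = zeta L ((α * t : ℝ) : ℂ) := fZ_coe L hL α t
    have e3 : eval ((α * t : ℝ) : ℂ) (((p ![i, k]).map φ).comp (C ((α : ℂ)⁻¹) * X)) = φ ((p ![i, k]).eval t) := by
      rw [eval_comp, eval_mul, eval_C, eval_X]
      have : (α : ℂ)⁻¹ * ((α * t : ℝ) : ℂ) = φ t := by
        simp only [hφ, Complex.ofRealHom_eq_coe]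
        push_cast
        field_simp
      rw [this, eval_map, eval₂_at_apply]
    rw [e3]
    simp only [Fin.isValue, ↓reduceIte, one_ne_zero]
    rw [e1, e2]
    simp [mul_assoc]
  have hG0 : ∀ z, z ∉ L.lattice → G z = 0 := by
    set c : ℝ := (a + b) / 2 with hc
    have hcI : c ∈ Icc a b := ⟨by rw [hc]; linarith, by rw [hc]; linarith⟩
    have htend : Tendsto (fun t : ℝ => ((α * t : ℝ) : ℂ)) (𝓝[≠] c) (𝓝[≠] ((α * c : ℝ) : ℂ)) := by
      refine tendsto_nhdsWithin_of_tendsto_nhds_of_eventually_within _ ?_ ?_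
      · have : Continuous (fun t : ℝ => ((α * t : ℝ) : ℂ)) := by fun_prop
        exact (this.tendsto c).mono_left nhdsWithin_le_nhds
      · filter_upwards [self_mem_nhdsWithin] with t ht
        intro h
        apply ht
        have h1 : ((α * t : ℝ) : ℂ) = ((α * c : ℝ) : ℂ) := h
        have h2 : α * t = α * c := by exact_mod_cast h1
        exact mul_left_cancel₀ hα h2
    have hfr : ∃ᶠ z in 𝓝[≠] ((α * c : ℝ) : ℂ), G z = 0 := by
      apply htend.frequently
      apply Eventually.frequently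
      have : Icc a b ∈ 𝓝 c := Icc_mem_nhds (by rw [hc]; linarith) (by rw [hc]; linarith)
      filter_upwards [mem_nhdsWithin_of_mem_nhds this] with t ht
      exact hGreal t ht
    have h0 := hGan.eqOn_zero_of_preconnected_of_frequently_eq_zero (isPreconnected_compl L)
      (show ((α * c : ℝ) : ℂ) ∈ (L.lattice : Set ℂ)ᶜ from hav c hcI) hfr
    intro z hz
    exact h0 hz
  have hz := wz_indep L p' hG0
  funext e
  have h1 := hz (e 0) (e 1)
  have he : ![e 0, e 1] = e := by
    funext i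
    fin_cases i <;> rfl
  simp only [hp', he] at h1
  -- composition with a nonzero linear map is injective
  have h2 : (p e).map φ = 0 := by
    have h3 := congrArg (fun q : ℂ[X] => q.comp (C (α : ℂ) * X)) h1
    simp only [zero_comp, comp_assoc, mul_comp, C_comp, X_comp] at h3
    rw [← mul_assoc, ← C_mul, inv_mul_cancel₀ hαc, C_1, one_mul, comp_X] at h3
    exact h3
  have h4 : Function.Injective (Polynomial.map φ) := Polynomial.map_injective φ φ.injective
  exact h4 (by rw [h2]; simp)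

end Pool.Agent.TH373.EP
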