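import Pool.Agent.W245.EB.Gz
import Pool.Agent.TH818.AP.Mv2

/-!
# The functions `t`, `℘(α t)`, `ζ(α t)` are algebraically independent
-/

set_option autoImplicit false

open Set Polynomial Filter Topology
open scoped PeriodPair ComplexConjugate

namespace Pool.Agent.TH373.EP

open H667R3 Pool.Agent.W245.EB

variable (L : PeriodPair)

/-- a polynomial which vanishes at all natural numbers is zero -/
lemma zero_of_nat (P : ℂ[X]) (h : ∀ n : ℕ, P.eval (n : ℂ) = 0) : P = 0 := by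
  apply Polynomial.eq_zero_of_infinite_isRoot
  refine (Set.infinite_range_of_injective (Nat.cast_injective (R := ℂ))).mono ?_
  rintro _ ⟨n, rfl⟩
  exact h n

/-- the periods and quasi-periods are independent -/
lemma det_ne : L.ω₁ * eta L L.ω₂ - L.ω₂ * eta L L.ω₁ ≠ 0 := by
  intro h0
  have hω : L.ω₁ ≠ 0 := by
    intro h0
    have := L.ω₁_div_two_notMem_lattice
    rw [h0, zero_div] at this
    exact this (zero_mem _)
  obtain ⟨w, hw, hne⟩ := exists_quasi_period L (s := L.ω₁) (ρ := -eta L L.ω₁) (Or.inl hω)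
  apply hne
  obtain ⟨m, n, rfl⟩ := PeriodPair.mem_lattice.1 hw
  have h1 : (m : ℂ) * L.ω₁ ∈ L.lattice := by
    have := L.lattice.smul_mem m L.ω₁_mem_lattice
    simpa using this
  have h2 : (n : ℂ) * L.ω₂ ∈ L.lattice := by
    have := L.lattice.smul_mem n L.ω₂_mem_lattice
    simpa using this
  rw [eta_add L h1 h2, eta_zsmul L L.ω₁_mem_lattice, eta_zsmul L L.ω₂_mem_lattice]
  linear_combination (n : ℂ) * h0

lemma solve (u v : ℂ) : ∃ x y : ℂ, x * L.ω₁ + y * L.ω₂ = u ∧ x * eta L L.ω₁ + y * eta L L.ω₂ = v := by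
  have h := det_ne L
  refine ⟨(u * eta L L.ω₂ - v * L.ω₂) / (L.ω₁ * eta L L.ω₂ - L.ω₂ * eta L L.ω₁),
    (v * L.ω₁ - u * eta L L.ω₁) / (L.ω₁ * eta L L.ω₂ - L.ω₂ * eta L L.ω₁), ?_, ?_⟩
  · rw [div_mul_eq_mul_div, div_mul_eq_mul_div, ← add_div, div_eq_iff h]
    ring
  · rw [div_mul_eq_mul_div, div_mul_eq_mul_div, ← add_div, div_eq_iff h]
    ring

/-- `℘` takes infinitely many values -/
lemma wp_infinite (P : ℂ[X]) (h : ∀ z, z ∉ L.lattice → P.eval (℘[L] z) = 0) : P = 0 := by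
  by_contra hP
  have h1 : Tendsto ℘[L] (𝓝[≠] 0) (Bornology.cobounded ℂ) := by
    rw [tendsto_cobounded_iff_meromorphicOrderAt_neg (L.meromorphic_weierstrassP 0)]
    rw [L.order_weierstrassP 0 (zero_mem _)]
    decide
  have h2 : ∀ᶠ z in 𝓝[≠] (0 : ℂ), z ∉ L.lattice := by
    have := L.compl_lattice_sdiff_singleton_mem_nhds 0
    filter_upwards [mem_nhdsWithin_of_mem_nhds this, self_mem_nhdsWithin] with z hz hz0
    intro hzl
    exact hz ⟨hzl, hz0⟩
  have h3 : ∀ᶠ w in Bornology.cobounded ℂ, w ∉ (P.roots.toFinset : Set ℂ) := by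
    have : Bornology.IsBounded (P.roots.toFinset : Set ℂ) := (Finset.finite_toSet _).isBounded
    exact Bornology.isBounded_def.1 this
  obtain ⟨z, hz1, hz2⟩ := ((h1.eventually h3).and h2).exists
  apply hz1
  rw [Finset.mem_coe, Multiset.mem_toFinset, mem_roots hP]
  exact h z hz2

theorem wz_indep {d : ℕ} (p : Fin (d + 1) → Fin (d + 1) → ℂ[X])
    (h : ∀ z, z ∉ L.lattice → ∑ i, ∑ k, (p i k).eval z * ℘[L] z ^ (i : ℕ) * zeta L z ^ (k : ℕ) = 0) :
    ∀ i k, p i k = 0 := by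
  -- translation by the lattice
  have hA : ∀ z, z ∉ L.lattice → ∀ m n : ℕ, ∑ i, ∑ k, (p i k).eval (z + L.ω₁ * m + L.ω₂ * n) *
      ℘[L] z ^ (i : ℕ) * (zeta L z + eta L L.ω₁ * m + eta L L.ω₂ * n) ^ (k : ℕ) = 0 := by
    intro z hz m n
    have h1 : (m : ℂ) * L.ω₁ ∈ L.lattice := by
      have := L.lattice.smul_mem (m : ℤ) L.ω₁_mem_lattice
      simpa using this
    have h2 : (n : ℂ) * L.ω₂ ∈ L.lattice := by
      have := L.lattice.smul_mem (n : ℤ) L.ω₂_mem_lattice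
      simpa using this
    have h3 : (m : ℂ) * L.ω₁ + n * L.ω₂ ∈ L.lattice := add_mem h1 h2
    have h4 : z + (m * L.ω₁ + n * L.ω₂) ∉ L.lattice := fun hh => hz (by simpa using sub_mem hh h3)
    have h5 := h _ h4
    have h6 : ℘[L] (z + (m * L.ω₁ + n * L.ω₂)) = ℘[L] z := L.weierstrassP_add_coe z ⟨_, h3⟩
    rw [h6, zeta_add_coe L hz h3, eta_add L h1 h2, eta_nsmul L L.ω₁_mem_lattice,
      eta_nsmul L L.ω₂_mem_lattice] at h5
    rw [← h5]
    refine Finset.sum_congr rfl fun i _ => Finset.sum_congr rfl fun k _ => ?_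
    rw [show z + L.ω₁ * m + L.ω₂ * n = z + (m * L.ω₁ + n * L.ω₂) by ring,
      show zeta L z + eta L L.ω₁ * m + eta L L.ω₂ * n = zeta L z + (m * eta L L.ω₁ + n * eta L L.ω₂) by ring]
  have hB : ∀ z, z ∉ L.lattice → ∀ (m : ℕ) (y : ℂ), ∑ i, ∑ k, (p i k).eval (z + L.ω₁ * m + L.ω₂ * y) *
      ℘[L] z ^ (i : ℕ) * (zeta L z + eta L L.ω₁ * m + eta L L.ω₂ * y) ^ (k : ℕ) = 0 := by
    intro z hz m y
    have h1 := zero_of_nat (∑ i, ∑ k, (p i k).comp (C (z + L.ω₁ * m) + C L.ω₂ * X) *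
      C (℘[L] z) ^ (i : ℕ) * (C (zeta L z + eta L L.ω₁ * m) + C (eta L L.ω₂) * X) ^ (k : ℕ)) (by
        intro n
        have := hA z hz m n
        simpa [eval_finsetSum, eval_comp] using this)
    have h2 := congrArg (fun q : ℂ[X] => q.eval y) h1
    simpa [eval_finsetSum, eval_comp] using h2
  have hC : ∀ z, z ∉ L.lattice → ∀ (x y : ℂ), ∑ i, ∑ k, (p i k).eval (z + L.ω₁ * x + L.ω₂ * y) *
      ℘[L] z ^ (i : ℕ) * (zeta L z + eta L L.ω₁ * x + eta L L.ω₂ * y) ^ (k : ℕ) = 0 := by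
    intro z hz x y
    have h1 := zero_of_nat (∑ i, ∑ k, (p i k).comp (C z + C L.ω₁ * X + C (L.ω₂ * y)) *
      C (℘[L] z) ^ (i : ℕ) * (C (zeta L z) + C (eta L L.ω₁) * X + C (eta L L.ω₂ * y)) ^ (k : ℕ)) (by
        intro n
        have := hB z hz n y
        simpa [eval_finsetSum, eval_comp] using this)
    have h2 := congrArg (fun q : ℂ[X] => q.eval x) h1
    simpa [eval_finsetSum, eval_comp] using h2
  have hD : ∀ z, z ∉ L.lattice → ∀ w y : ℂ, ∑ i, ∑ k, (p i k).eval w *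
      ℘[L] z ^ (i : ℕ) * y ^ (k : ℕ) = 0 := by
    intro z hz w y
    obtain ⟨x, x', h1, h2⟩ := solve L (w - z) (y - zeta L z)
    have h3 := hC z hz x x'
    have h4 : z + L.ω₁ * x + L.ω₂ * x' = w := by linear_combination h1
    have h5 : zeta L z + eta L L.ω₁ * x + eta L L.ω₂ * x' = y := by linear_combination h2
    rw [h4, h5] at h3
    exact h3
  intro i k
  -- the coefficient of `y^k`
  have hE : ∀ w : ℂ, (∑ i : Fin (d + 1), C ((p i k).eval w) * X ^ (i : ℕ) : ℂ[X]) = 0 := by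
    intro w
    apply wp_infinite L
    intro z hz
    have h1 : (∑ k : Fin (d + 1), C (∑ i : Fin (d + 1), (p i k).eval w * ℘[L] z ^ (i : ℕ)) * X ^ (k : ℕ) : ℂ[X]) = 0 := by
      apply zero_of_nat
      intro n
      have := hD z hz w n
      rw [Finset.sum_comm] at this
      simpa [eval_finsetSum, Finset.sum_mul] using this
    have h2 := congrArg (fun q : ℂ[X] => q.coeff k) h1
    simp only [finsetSum_coeff, coeff_C_mul, coeff_X_pow, coeff_zero] at h2
    rw [Finset.sum_eq_single k] at h2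
    · simpa [eval_finsetSum] using h2
    · intro j _ hj
      rw [if_neg (fun hh => hj (Fin.ext hh.symm)), mul_zero]
    · simp
  apply Polynomial.funext
  intro w
  have h2 := congrArg (fun q : ℂ[X] => q.coeff i) (hE w)
  simp only [finsetSum_coeff, coeff_C_mul, coeff_X_pow, coeff_zero] at h2
  rw [Finset.sum_eq_single i] at h2
  · simpa using h2
  · intro j _ hj
    rw [if_neg (fun hh => hj (Fin.ext hh.symm)), mul_zero]
  · simp

end Pool.Agent.TH373.EP
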